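import Mathlib

/-!
# Unions of intervals which weakly tile their complement, but do not tile it properly: definitions of the statement
-/

set_option autoImplicit false

open MeasureTheory Set

namespace Pool.H63.MV.IntegerIntervals

/-- `Ω` is the union of the `n` open intervals `(a i, b i)`; they are nondegenerate, listed in
increasing order, and any two of them are at a positive distance. -/
def IsUnion (n : ℕ) (a b : Fin n → ℤ) (Ω : Set ℝ) : Prop :=
  (∀ i, a i < b i) ∧ (∀ i j, i < j → b i < a j) ∧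
    ∀ x : ℝ, x ∈ Ω ↔ ∃ i, (a i : ℝ) < x ∧ x < (b i : ℝ)

/-- `1_Ω * ν = g` almost everywhere. -/
def ConvEq (Ω : Set ℝ) (ν : Measure ℝ) (g : ℝ → ENNReal) : Prop :=
  ∀ᵐ x ∂(volume : Measure ℝ), ∫⁻ t, Ω.indicator (fun _ => (1 : ENNReal)) (x - t) ∂ν = g x

/-- `ν` is a weak tiling measure for `Ω`: a Borel measure, finite on bounded sets, with
`1_Ω * ν = 1` almost everywhere outside `Ω` and `1_Ω * ν = 0` almost everywhere on `Ω`. -/
def IsWeakTiling (Ω : Set ℝ) (ν : Measure ℝ) : Prop :=
  (∀ R : ℝ, ν (Icc (-R) R) < ⊤) ∧ ConvEq Ω ν (Ωᶜ.indicator (fun _ => 1))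

/-- The counting measure of the set `T`. -/
noncomputable def deltas (T : Set ℝ) : Measure ℝ :=
  Measure.sum (fun t : T => Measure.dirac (t : ℝ))

end Pool.H63.MV.IntegerIntervals
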