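import Pool.Agent.H35.WT.Weak
import Pool.Agent.H63.MV.IntegerIntervalsDefs

/-!
# Unions of intervals which weakly tile their complement, but do not tile it properly: the proof
-/

set_option autoImplicit false

open MeasureTheory Set

namespace Pool.H63.MV.IntegerIntervals

open Pool.Agent.H35.WT in
/-- the convolution with the counting measure of `T` -/
theorem conv_deltas (Ω T : Set ℝ) (x : ℝ) :
    ∫⁻ t, Ω.indicator (fun _ => (1 : ENNReal)) (x - t) ∂(deltas T) =
      ∑' t : T, Ω.indicator (fun _ => (1 : ENNReal)) (x - t) := by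
  unfold deltas
  rw [lintegral_sum_measure]
  congr 1
  ext t
  rw [lintegral_dirac]

theorem none_of_eq_zero {Ω T : Set ℝ} {x : ℝ}
    (h : ∑' t : T, Ω.indicator (fun _ => (1 : ENNReal)) (x - t) = 0) (t : ℝ) (ht : t ∈ T) :
    x - t ∉ Ω := by
  intro hm
  rw [ENNReal.tsum_eq_zero] at h
  have := h ⟨t, ht⟩
  rw [Set.indicator_of_mem (by exact hm)] at this
  exact one_ne_zero this

theorem exists_of_eq_one {Ω T : Set ℝ} {x : ℝ}
    (h : ∑' t : T, Ω.indicator (fun _ => (1 : ENNReal)) (x - t) = 1) :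
    (∃ t ∈ T, x - t ∈ Ω) ∧ (∀ t ∈ T, ∀ t' ∈ T, x - t ∈ Ω → x - t' ∈ Ω → t = t') := by
  constructor
  · by_contra hcon
    push Not at hcon
    have : ∑' t : T, Ω.indicator (fun _ => (1 : ENNReal)) (x - t) = 0 := by
      rw [ENNReal.tsum_eq_zero]
      intro t
      exact Set.indicator_of_notMem (hcon t t.2) _
    rw [this] at h
    exact zero_ne_one h
  · intro t ht t' ht' hm hm'
    by_contra hne
    have hle := ENNReal.sum_le_tsum (f := fun t : T =>
      Ω.indicator (fun _ => (1 : ENNReal)) (x - t)) {⟨t, ht⟩, ⟨t', ht'⟩}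
    rw [h, Finset.sum_pair (by simpa using hne)] at hle
    rw [Set.indicator_of_mem (by exact hm), Set.indicator_of_mem (by exact hm')] at hle
    norm_num at hle

section

open Pool.Agent.H35.WT

/-- The set `Ω` of the helper files does not tile the line. -/
theorem no_tiling (T : Set ℝ) : ¬ ∀ᵐ x ∂(volume : Measure ℝ), (∃ t ∈ T, x - t ∈ Om) ∧
      (∀ t ∈ T, ∀ t' ∈ T, x - t ∈ Om → x - t' ∈ Om → t = t') := by
  intro hT
  obtain ⟨x₀, hx₀⟩ := (MeasureTheory.Measure.dense_of_ae hT).nonempty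
  obtain ⟨t₀, ht₀, -⟩ := hx₀.1
  set T' : Set ℝ := {t | t + t₀ ∈ T} with hT'
  have h0 : (0 : ℝ) ∈ T' := by simpa [hT'] using ht₀
  have hG : ∀ᵐ x ∂(volume : Measure ℝ), (∃ t ∈ T', x - t ∈ Om) ∧
      (∀ t ∈ T', ∀ t' ∈ T', x - t ∈ Om → x - t' ∈ Om → t = t') := by
    have hq := (measurePreserving_add_right (volume : Measure ℝ) t₀).quasiMeasurePreserving.ae hT
    filter_upwards [hq] with x hx
    obtain ⟨⟨t, ht, hm⟩, hu⟩ := hx
    constructor
    · refine ⟨t - t₀, ?_, ?_⟩
      · simpa [hT'] using ht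
      · convert hm using 1
        ring
    · intro t ht t' ht' hm hm'
      have := hu (t + t₀) ht (t' + t₀) ht' (by convert hm using 1; ring) (by convert hm' using 1; ring)
      linarith
  obtain ⟨hcov, huniq⟩ := to_int h0 hG
  obtain ⟨g1, g2⟩ := glue (X := P1) (Y := P2) (T := fun n : ℤ => (n : ℝ) ∈ T')
    (by simpa using h0) ⟨0, by simp [A1], by simp⟩ hcov huniq
  classical
  refine no_common_complement (fun m => if ((9 * m : ℤ) : ℝ) ∈ T' then 1 else 0) ?_ ?_ ?_
  · intro n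
    by_cases hn : ((9 * n : ℤ) : ℝ) ∈ T'
    · right; rw [if_pos hn]
    · left; rw [if_neg hn]
  · intro n
    exact conv_eq_one A1_nodup (Q := fun m : ℤ => ((9 * m : ℤ) : ℝ) ∈ T') (g1 n)
  · intro n
    exact conv_eq_one A2_nodup (Q := fun m : ℤ => ((9 * m : ℤ) : ℝ) ∈ T') (g2 n)

theorem runs_bound : ∀ p ∈ runs, p.2 < 16200 := by decide +kernel

theorem Om_bound {x : ℝ} (hx : x ∈ Om) : 0 < x ∧ x < 16200 := by
  obtain ⟨p, hp, h1, h2⟩ := mem_Om_iff.1 hx
  have h3 : ((p.2 : ℕ) : ℝ) < ((16200 : ℕ) : ℝ) := Nat.cast_lt.2 (runs_bound p hp)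
  constructor
  · exact lt_of_le_of_lt (Nat.cast_nonneg _) h1
  · push_cast at h3
    linarith

/-- `q` translates of `Ω`. -/
def OmQ (q : ℕ) : Set ℝ := {x | ∃ j < q, x - 16200 * (j : ℝ) ∈ Om}

theorem OmQ_uniq {x : ℝ} {j j' : ℕ} (h : x - 16200 * (j : ℝ) ∈ Om) (h' : x - 16200 * (j' : ℝ) ∈ Om) :
    j = j' := by
  have h1 := Om_bound h
  have h2 := Om_bound h'
  have h3 : (j : ℝ) < j' + 1 := by linarith [h1.1, h1.2, h2.1, h2.2]
  have h4 : (j' : ℝ) < j + 1 := by linarith [h1.1, h1.2, h2.1, h2.2]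
  have h5 : j < j' + 1 := by exact_mod_cast h3
  have h6 : j' < j + 1 := by exact_mod_cast h4
  omega

theorem OmQ_indicator (q : ℕ) (x : ℝ) : (OmQ q).indicator (fun _ => (1 : ENNReal)) x =
    ∑ j ∈ Finset.range q, Om.indicator (fun _ => (1 : ENNReal)) (x - 16200 * (j : ℝ)) := by
  by_cases h : x ∈ OmQ q
  · obtain ⟨j, hj, hm⟩ := h
    rw [Set.indicator_of_mem (show x ∈ OmQ q from ⟨j, hj, hm⟩), Finset.sum_eq_single j]
    · rw [Set.indicator_of_mem hm]
    · intro j' _ hne
      exact Set.indicator_of_notMem (fun hm' => hne (OmQ_uniq hm' hm)) _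
    · intro hj'
      exact absurd (Finset.mem_range.2 hj) hj'
  · rw [Set.indicator_of_notMem h]
    symm
    apply Finset.sum_eq_zero
    intro j hj
    exact Set.indicator_of_notMem (fun hm => h ⟨j, Finset.mem_range.1 hj, hm⟩) _

/-- The union of `q` translates of `Ω` does not tile the line. -/
theorem no_tiling_Q (q : ℕ) (T : Set ℝ) :
    ¬ ∀ᵐ x ∂(volume : Measure ℝ), (∃ t ∈ T, x - t ∈ OmQ q) ∧
      (∀ t ∈ T, ∀ t' ∈ T, x - t ∈ OmQ q → x - t' ∈ OmQ q → t = t') := by
  intro hT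
  refine no_tiling {s | ∃ t ∈ T, ∃ j < q, s = t + 16200 * (j : ℝ)} ?_
  filter_upwards [hT] with x hx
  obtain ⟨⟨t, ht, j, hj, hm⟩, hu⟩ := hx
  constructor
  · refine ⟨t + 16200 * (j : ℝ), ⟨t, ht, j, hj, rfl⟩, ?_⟩
    convert hm using 1
    ring
  · rintro s ⟨t1, ht1, j1, hj1, rfl⟩ s' ⟨t2, ht2, j2, hj2, rfl⟩ hm1 hm2
    have e1 : x - t1 - 16200 * (j1 : ℝ) ∈ Om := by
      convert hm1 using 1
      ring
    have e2 : x - t2 - 16200 * (j2 : ℝ) ∈ Om := by
      convert hm2 using 1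
      ring
    have e := hu t1 ht1 t2 ht2 ⟨j1, hj1, e1⟩ ⟨j2, hj2, e2⟩
    subst e
    rw [OmQ_uniq e1 e2]

/-- `240` times the masses of the weak tiling measure with the mass `1` at `0` added. -/
def wQ (q : ℕ) (k : ℤ) : ℕ := if (k / 1800) % (q : ℤ) = 0 then wZ k else 0

theorem wZ_period (k j : ℤ) : wZ (k - 1800 * j) = wZ k := by
  unfold wZ
  have : (k - 1800 * j) % 900 = k % 900 := by omega
  rw [this]

theorem wQ_period (q : ℕ) (k : ℤ) : wQ q (k + 1800 * q) = wQ q k := by
  unfold wQ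
  have h1 : (k + 1800 * (q : ℤ)) / 1800 = k / 1800 + q := by omega
  have h2 : wZ (k + 1800 * (q : ℤ)) = wZ k := by
    have := wZ_period k (-(q : ℤ))
    rw [← this]
    congr 1
    ring
  rw [h1, h2, Int.add_emod_right]

theorem wQ_zero (q : ℕ) : wQ q 0 = 240 := by
  unfold wQ
  rw [if_pos (by simp), wZ_zero]

theorem wQ_sum {q : ℕ} (hq : 0 < q) (k : ℤ) :
    ∑ j ∈ Finset.range q, wQ q (k - 1800 * (j : ℤ)) = wZ k := by
  have hq' : (0 : ℤ) < q := by exact_mod_cast hq
  have h0 := Int.emod_nonneg (k / 1800) hq'.ne'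
  have h1 := Int.emod_lt_of_pos (k / 1800) hq'
  obtain ⟨r, hr⟩ := Int.eq_ofNat_of_zero_le h0
  have key : ∀ j : ℕ, (k - 1800 * (j : ℤ)) / 1800 = k / 1800 - j := by
    intro j
    omega
  rw [Finset.sum_eq_single r]
  · unfold wQ
    rw [key, if_pos, wZ_period]
    rw [← hr, Int.sub_emod, Int.emod_emod]
    simp
  · intro j hj hne
    unfold wQ
    rw [key, if_neg]
    intro hcon
    apply hne
    have hj' : (j : ℤ) < q := by exact_mod_cast Finset.mem_range.1 hj
    have h2 : (k / 1800) % (q : ℤ) = (j : ℤ) % (q : ℤ) := by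
      exact Int.emod_eq_emod_iff_emod_sub_eq_zero.2 hcon
    rw [hr, Int.emod_eq_of_lt (by positivity) hj'] at h2
    exact_mod_cast h2.symm
  · intro hr'
    exfalso
    apply hr'
    rw [Finset.mem_range]
    rw [hr] at h1
    exact_mod_cast h1

/-- The weak tiling measure, with the mass `1` at `0` added. -/
noncomputable def muQ (q : ℕ) : Measure ℝ :=
  Measure.sum (fun k : ℤ => ((wQ q k : ENNReal) / 240) • Measure.dirac ((9 * k : ℤ) : ℝ))

/-- The weak tiling measure. -/
noncomputable def nuQ (q : ℕ) : Measure ℝ :=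
  Measure.sum (fun k : ℤ => (if k = 0 then (0 : ENNReal) else (wQ q k : ENNReal) / 240) •
    Measure.dirac ((9 * k : ℤ) : ℝ))

theorem nuQ_add (q : ℕ) : nuQ q + Measure.dirac 0 = muQ q := by
  ext S hS
  unfold nuQ muQ
  rw [Measure.add_apply, Measure.sum_apply _ hS, Measure.sum_apply _ hS,
    ENNReal.tsum_eq_add_tsum_ite (f := fun k : ℤ =>
      (((wQ q k : ENNReal) / 240) • Measure.dirac ((9 * k : ℤ) : ℝ)) S) (0 : ℤ), add_comm]
  congr 1
  · have : ((240 : ℕ) : ENNReal) / 240 = 1 := ENNReal.div_self (by norm_num) (by norm_num)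
    rw [wQ_zero, this]
    simp
  · congr 1
    ext k
    split_ifs with h
    · simp
    · rfl

theorem conv_muQ_eq (w : ℤ → ENNReal) (Ω : Set ℝ) (x : ℝ) :
    ∫⁻ t, Ω.indicator (fun _ => (1 : ENNReal)) (x - t)
      ∂(Measure.sum (fun k : ℤ => w k • Measure.dirac ((9 * k : ℤ) : ℝ))) =
      ∑' k : ℤ, w k * Ω.indicator (fun _ => (1 : ENNReal)) (x - ((9 * k : ℤ) : ℝ)) := by
  rw [lintegral_sum_measure]
  congr 1
  ext k
  rw [lintegral_smul_measure, lintegral_dirac, smul_eq_mul]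

theorem conv_Z {x : ℝ} (hx : ∀ n : ℤ, (n : ℝ) ≠ x) :
    ∑' k : ℤ, ((wZ k : ENNReal) / 240) *
      Om.indicator (fun _ => (1 : ENNReal)) (x - ((9 * k : ℤ) : ℝ)) = 1 := by
  classical
  have h1 := nu_shift hx
  have hS : MeasurableSet {t : ℝ | x - t ∈ Om} :=
    (measurable_const.sub measurable_id) measurableSet_Om
  rw [nu_apply hS] at h1
  have h3 : ((240 : ℕ) : ENNReal) / 240 = 1 := ENNReal.div_self (by norm_num) (by norm_num)
  have hk : ∀ B : ENNReal, B = (if x ∈ Om then 0 else 1) → ((wZ 0 : ENNReal) / 240) *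
      Om.indicator (fun _ => (1 : ENNReal)) (x - ((9 * 0 : ℤ) : ℝ)) + B = 1 := by
    intro B hB
    rw [hB, wZ_zero, h3, one_mul]
    simp only [mul_zero, Int.cast_zero, sub_zero]
    by_cases hm : x ∈ Om
    · rw [Set.indicator_of_mem hm, if_pos hm, add_zero]
    · rw [Set.indicator_of_notMem hm, if_neg hm, zero_add]
  rw [ENNReal.tsum_eq_add_tsum_ite (0 : ℤ)]
  apply hk
  rw [← h1]
  apply tsum_congr
  intro k
  by_cases h0 : k = 0
  · rw [if_pos h0]
    have : W k = 0 := if_pos h0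
    rw [this, ite_self]
  · rw [if_neg h0]
    have : W k = (wZ k : ENNReal) / 240 := if_neg h0
    rw [this]
    by_cases hm : x - ((9 * k : ℤ) : ℝ) ∈ Om
    · rw [Set.indicator_of_mem hm, if_pos (by exact hm), mul_one]
    · rw [Set.indicator_of_notMem hm, if_neg (by exact hm), mul_zero]

theorem conv_muQ {q : ℕ} (hq : 0 < q) {x : ℝ} (hx : ∀ n : ℤ, (n : ℝ) ≠ x) :
    ∫⁻ t, (OmQ q).indicator (fun _ => (1 : ENNReal)) (x - t) ∂(muQ q) = 1 := by
  unfold muQ
  rw [conv_muQ_eq (fun k => (wQ q k : ENNReal) / 240)]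
  have h1 : ∀ k : ℤ, ((wQ q k : ENNReal) / 240) *
      (OmQ q).indicator (fun _ => (1 : ENNReal)) (x - ((9 * k : ℤ) : ℝ)) =
      ∑ j ∈ Finset.range q, ((wQ q k : ENNReal) / 240) *
        Om.indicator (fun _ => (1 : ENNReal)) (x - ((9 * (k + 1800 * (j : ℤ)) : ℤ) : ℝ)) := by
    intro k
    rw [OmQ_indicator, Finset.mul_sum]
    apply Finset.sum_congr rfl
    intro j _
    congr 2
    push_cast
    ring
  rw [tsum_congr h1, Summable.tsum_finsetSum (fun _ _ => ENNReal.summable)]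
  have h2 : ∀ j : ℕ, ∑' k : ℤ, ((wQ q k : ENNReal) / 240) *
        Om.indicator (fun _ => (1 : ENNReal)) (x - ((9 * (k + 1800 * (j : ℤ)) : ℤ) : ℝ)) =
      ∑' k : ℤ, ((wQ q (k - 1800 * (j : ℤ)) : ENNReal) / 240) *
        Om.indicator (fun _ => (1 : ENNReal)) (x - ((9 * k : ℤ) : ℝ)) := by
    intro j
    rw [← (Equiv.addRight (1800 * (j : ℤ))).tsum_eq (fun k : ℤ =>
      ((wQ q (k - 1800 * (j : ℤ)) : ENNReal) / 240) *
        Om.indicator (fun _ => (1 : ENNReal)) (x - ((9 * k : ℤ) : ℝ)))]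
    apply tsum_congr
    intro k
    simp only [Equiv.coe_addRight, add_sub_cancel_right]
  rw [Finset.sum_congr rfl (fun j _ => h2 j),
    ← Summable.tsum_finsetSum (fun _ _ => ENNReal.summable)]
  refine Eq.trans ?_ (conv_Z hx)
  apply tsum_congr
  intro k
  rw [← Finset.sum_mul, ← wQ_sum hq k]
  congr 1
  simp only [ENNReal.div_eq_inv_mul, ← Finset.mul_sum, Nat.cast_sum]

theorem nuQ_weak {q : ℕ} (hq : 0 < q) : IsWeakTiling (OmQ q) (nuQ q) := by
  constructor
  · intro R
    have h1 : nuQ q ≤ nu := by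
      rw [Measure.le_iff]
      intro S hS
      unfold nuQ nu
      rw [Measure.sum_apply _ hS, Measure.sum_apply _ hS]
      apply ENNReal.tsum_le_tsum
      intro k
      rw [Measure.smul_apply, Measure.smul_apply]
      apply mul_le_mul_left
      unfold W wQ
      split_ifs <;> simp
    have := nu_locallyFinite
    exact (h1 _).trans_lt isCompact_Icc.measure_lt_top
  · have hae : ∀ᵐ x ∂(volume : Measure ℝ), x ∉ Set.range (Int.cast : ℤ → ℝ) :=
      (Set.countable_range _).ae_notMem _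
    filter_upwards [hae] with x hx
    have hx' : ∀ n : ℤ, (n : ℝ) ≠ x := fun n hn => hx ⟨n, hn⟩
    have h1 := conv_muQ hq hx'
    rw [← nuQ_add, lintegral_add_measure, lintegral_dirac, sub_zero] at h1
    by_cases hm : x ∈ OmQ q
    · rw [Set.indicator_of_mem hm] at h1
      rw [Set.indicator_of_notMem (by simpa using hm)]
      exact (ENNReal.add_left_inj ENNReal.one_ne_top).1 (h1.trans (zero_add 1).symm)
    · rw [Set.indicator_of_notMem hm, add_zero] at h1
      rw [Set.indicator_of_mem (by simpa using hm), h1]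

/-- the left end points -/
def aQ (q : ℕ) (i : Fin (q * 117)) : ℤ := lo i.modNat + 16200 * (i.divNat : ℕ)

/-- the right end points -/
def bQ (q : ℕ) (i : Fin (q * 117)) : ℤ := hi i.modNat + 16200 * (i.divNat : ℕ)

theorem hi_bound (i : Fin 117) : hi i < 16200 := runs_bound _ (List.get_mem _ _)

theorem isUnionQ (q : ℕ) : IsUnion (q * 117) (aQ q) (bQ q) (OmQ q) := by
  refine ⟨?_, ?_, ?_⟩
  · intro i
    unfold aQ bQ
    have := lo_lt_hi i.modNat
    omega
  · intro i j hij
    unfold aQ bQ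
    have h1 : (i.divNat : ℕ) = (i : ℕ) / 117 := rfl
    have h2 : (j.divNat : ℕ) = (j : ℕ) / 117 := rfl
    have h3 : (i.modNat : ℕ) = (i : ℕ) % 117 := rfl
    have h4 : (j.modNat : ℕ) = (j : ℕ) % 117 := rfl
    have h5 : (i : ℕ) < j := hij
    have hb := hi_bound i.modNat
    by_cases h6 : (i.divNat : ℕ) = j.divNat
    · have h7 : i.modNat < j.modNat := by
        rw [Fin.lt_def]
        omega
      have := hi_lt_lo h7
      rw [h6]
      omega
    · have h7 : (i.divNat : ℕ) + 1 ≤ j.divNat := by omega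
      have h8 : ((i.divNat : ℕ) : ℤ) + 1 ≤ (j.divNat : ℕ) := by exact_mod_cast h7
      omega
  · intro x
    constructor
    · rintro ⟨j, hj, hm⟩
      obtain ⟨i, h1, h2⟩ := Set.mem_iUnion.1 hm
      refine ⟨finProdFinEquiv (⟨j, hj⟩, i), ?_, ?_⟩
      · have e1 : (finProdFinEquiv ((⟨j, hj⟩ : Fin q), i)).divNat = ⟨j, hj⟩ := by
          have := finProdFinEquiv.symm_apply_apply ((⟨j, hj⟩ : Fin q), i)
          exact congrArg Prod.fst this
        have e2 : (finProdFinEquiv ((⟨j, hj⟩ : Fin q), i)).modNat = i := by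
          have := finProdFinEquiv.symm_apply_apply ((⟨j, hj⟩ : Fin q), i)
          exact congrArg Prod.snd this
        unfold aQ
        rw [e1, e2]
        push_cast
        linarith
      · have e1 : (finProdFinEquiv ((⟨j, hj⟩ : Fin q), i)).divNat = ⟨j, hj⟩ := by
          have := finProdFinEquiv.symm_apply_apply ((⟨j, hj⟩ : Fin q), i)
          exact congrArg Prod.fst this
        have e2 : (finProdFinEquiv ((⟨j, hj⟩ : Fin q), i)).modNat = i := by
          have := finProdFinEquiv.symm_apply_apply ((⟨j, hj⟩ : Fin q), i)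
          exact congrArg Prod.snd this
        unfold bQ
        rw [e1, e2]
        push_cast
        linarith
    · rintro ⟨i, h1, h2⟩
      unfold aQ at h1
      unfold bQ at h2
      push_cast at h1 h2
      refine ⟨i.divNat, i.divNat.2, Set.mem_iUnion.2 ⟨i.modNat, ?_, ?_⟩⟩
      · linarith
      · linarith

theorem not_weak_deltas (q : ℕ) (T : Set ℝ) : ¬ IsWeakTiling (OmQ q) (deltas T) := by
  rintro ⟨-, h⟩
  refine no_tiling_Q q (insert 0 T) ?_
  unfold ConvEq at h
  filter_upwards [h] with x hx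
  rw [conv_deltas] at hx
  by_cases hxO : x ∈ OmQ q
  · rw [Set.indicator_of_notMem (by simpa using hxO)] at hx
    have h0 := none_of_eq_zero hx
    refine ⟨⟨0, Set.mem_insert _ _, by simpa using hxO⟩, ?_⟩
    intro t ht t' ht' hm hm'
    rcases ht with rfl | ht
    · rcases ht' with rfl | ht'
      · rfl
      · exact absurd hm' (h0 t' ht')
    · exact absurd hm (h0 t ht)
  · rw [Set.indicator_of_mem (by simpa using hxO)] at hx
    obtain ⟨⟨t, ht, hm⟩, hu⟩ := exists_of_eq_one hx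
    refine ⟨⟨t, Set.mem_insert_of_mem _ ht, hm⟩, ?_⟩
    intro t ht t' ht' hm hm'
    rcases ht with rfl | ht
    · rw [sub_zero] at hm
      exact absurd hm hxO
    · rcases ht' with rfl | ht'
      · rw [sub_zero] at hm'
        exact absurd hm' hxO
      · exact hu t ht t' ht' hm hm'

end

/-- For every multiple `n = 117 q` of `117` there is a union `Ω` of `n` intervals with integer end
points which weakly tiles its complement, by a measure `ν` carried by the multiples of `9`, with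
masses in `(1/240) ℤ` and such that `ν + δ_0` is periodic.  But `Ω` does not tile its complement
properly, and it does not tile the line by translations. -/
theorem result (q : ℕ) (hq : 0 < q) :
    ∃ (a b : Fin (q * 117) → ℤ) (Ω : Set ℝ) (ν : Measure ℝ) (w : ℤ → ℕ),
      IsUnion (q * 117) a b Ω ∧
      (∀ k, w (k + 1800 * q) = w k) ∧
      ν + Measure.dirac 0 = Measure.sum (fun k : ℤ =>
        ((w k : ENNReal) / 240) • Measure.dirac ((9 * k : ℤ) : ℝ)) ∧
      IsWeakTiling Ω ν ∧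
      (∀ T : Set ℝ, ¬ IsWeakTiling Ω (deltas T)) ∧
      (∀ T : Set ℝ, ¬ ConvEq Ω (deltas T) (fun _ => 1)) := by
  refine ⟨aQ q, bQ q, OmQ q, nuQ q, wQ q, isUnionQ q, wQ_period q, nuQ_add q, nuQ_weak hq,
    not_weak_deltas q, ?_⟩
  intro T h
  refine no_tiling_Q q T ?_
  unfold ConvEq at h
  filter_upwards [h] with x hx
  rw [conv_deltas] at hx
  exact exists_of_eq_one hx

end Pool.H63.MV.IntegerIntervals
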